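import Pool.Agent.K1H81.DC.Stm

/-!
# Double covers: the moments for one degree
-/

set_option autoImplicit false
set_option linter.unusedSectionVars false

namespace Pool.Agent.K1H20.DC

open Finset hiding val
open Pool.Agent.Y722.HS Pool.Agent.X280.HG Pool.Agent.X280.BP Pool.Agent.X280.UC
open Pool.Agent.K1H81.DC (ebq)

theorem pow_sub_one {y B δ : ℝ} (hB : 1 ≤ B) (hy0 : 0 ≤ y) (hyB : y ≤ B) (h : |y - 1| ≤ δ) (k : ℕ) :
    |y ^ k - 1| ≤ k * B ^ k * δ := by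
  have hδ : 0 ≤ δ := (abs_nonneg _).trans h
  induction k with
  | zero => simp
  | succ k ih =>
    have e : y ^ (k + 1) - 1 = y * (y ^ k - 1) + (y - 1) := by ring
    rw [e]
    have h1 : |y * (y ^ k - 1)| ≤ B * (k * B ^ k * δ) := by
      rw [abs_mul, abs_of_nonneg hy0]
      exact mul_le_mul hyB ih (abs_nonneg _) (by linarith)
    have h2 : δ ≤ B ^ (k + 1) * δ := le_mul_of_one_le_left hδ (one_le_pow₀ hB)
    calc _ ≤ _ := abs_add_le _ _
      _ ≤ B * (k * B ^ k * δ) + B ^ (k + 1) * δ := add_le_add h1 (h.trans h2)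
      _ = _ := by push_cast; ring

theorem adm_ebq {q : ℝ} (hq : 1 ≤ q) : Adm (ebq q) (1 - 1 / q) := by
  have hq0 : 0 < q := by linarith
  have ht0 : 0 < 1 / q := by positivity
  have ht1 : 1 / q ≤ 1 := by rw [div_le_one hq0]; exact hq
  refine ⟨?_, ?_, ?_, fun k hk => ?_, ?_, ?_⟩
  · unfold ebq; rw [if_pos rfl]
  · unfold ebq; rw [if_neg (by norm_num), if_neg (by decide)]
  · unfold ebq; rw [if_neg (by norm_num), if_pos (by decide)]
  · unfold ebq
    rw [if_neg (by omega)]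
    split_ifs
    · rw [abs_of_nonneg (by linarith)]
    · rw [abs_zero]; linarith
  · linarith
  · linarith

/-- **The moments for one degree.** -/
theorem t : Pool.Agent.K1H81.DC.S_ONE := by
  intro j b hj K hK
  obtain ⟨C, hC0, hC⟩ := exists_asy b
  have hj0 : (0 : ℝ) < j := by exact_mod_cast hj
  have hj1 : (1 : ℝ) ≤ j := by exact_mod_cast hj
  refine ⟨√j ^ b * C * (1 + K) ^ (b / 2) +
    |gm b| * ((b / 2 : ℕ) * (1 + K) ^ (b / 2) * (1 + 2 * K)), by positivity, ?_⟩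
  intro m hm p hp N hN
  have hp0 : 0 < p := by linarith
  obtain ⟨Q, hQ⟩ : ∃ Q, p ^ j = Q := ⟨_, rfl⟩
  rw [hQ] at hN ⊢
  have hpQ : p ≤ Q := by
    rw [← hQ]
    calc p = p ^ 1 := (pow_one p).symm
      _ ≤ p ^ j := pow_le_pow_right₀ (by linarith) hj
  have hQ0 : 0 < Q := by linarith
  have hQ1 : 1 ≤ Q := by linarith
  have hQm : p ≤ Q ^ m := hpQ.trans (by
    calc Q = Q ^ 1 := (pow_one Q).symm
      _ ≤ Q ^ m := pow_le_pow_right₀ hQ1 hm)
  obtain ⟨S, hS⟩ : ∃ S, Q ^ (2 * m) = S := ⟨_, rfl⟩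
  have hSm : S = Q ^ m * Q ^ m := by rw [← hS, two_mul, pow_add]
  have hQm0 : 0 < Q ^ m := by positivity
  have hQm1 : 1 ≤ Q ^ m := one_le_pow₀ hQ1
  have hS0 : 0 < S := by rw [hSm]; positivity
  have hS1 : 1 ≤ S := by rw [hSm]; nlinarith
  have hpS : p ≤ S := by rw [hSm]; nlinarith
  rw [hS] at hN
  -- the ratio
  obtain ⟨w, hw⟩ : ∃ w, (j * N : ℝ) / S = w := ⟨_, rfl⟩
  have hw0 : 0 ≤ w := by rw [← hw]; positivity
  have hw1 : |w - 1| ≤ K / p := by
    have e : w - 1 = ((j * N : ℝ) - S) / S := by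
      rw [← hw]
      field_simp
    rw [e, abs_div, abs_of_pos hS0, div_le_iff₀ hS0]
    refine hN.trans (le_of_eq ?_)
    ring
  have hKp : K / p ≤ K := div_le_self hK (by linarith)
  have hw2 : w ≤ 1 + K := by
    have := (abs_le.1 hw1).2
    linarith
  have hjN : (j * N : ℝ) = w * S := by
    rw [← hw]
    field_simp
  -- the variance
  obtain ⟨x, hx⟩ : ∃ x, (N : ℝ) * (1 - 1 / Q) = x := ⟨_, rfl⟩
  have hiQ : 0 ≤ 1 - 1 / Q := by
    rw [sub_nonneg, div_le_one hQ0]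
    exact hQ1
  have hiQ1 : 1 - 1 / Q ≤ 1 := by
    have : 0 ≤ 1 / Q := by positivity
    linarith
  have hx0 : 0 ≤ x := by rw [← hx]; positivity
  obtain ⟨y, hy⟩ : ∃ y, j * x / S = y := ⟨_, rfl⟩
  have hyw : y = w * (1 - 1 / Q) := by
    rw [← hy, ← hx]
    have e : j * ((N : ℝ) * (1 - 1 / Q)) = (j * N : ℝ) * (1 - 1 / Q) := by ring
    rw [e, hjN]
    field_simp
  have hy0 : 0 ≤ y := by rw [hyw]; positivity
  have hy1 : y ≤ 1 + K := by
    rw [hyw]
    calc w * (1 - 1 / Q) ≤ w * 1 := by gcongr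
      _ ≤ 1 + K := by linarith
  have hjx : j * x = y * S := by
    rw [← hy]
    field_simp
  have hy2 : |y - 1| ≤ (1 + 2 * K) / p := by
    have e : y - 1 = (w - 1) - w * (1 / Q) := by rw [hyw]; ring
    have h1 : |w * (1 / Q)| ≤ (1 + K) / p := by
      rw [abs_of_nonneg (by positivity), mul_one_div]
      gcongr
    rw [e]
    calc _ ≤ _ := abs_sub _ _
      _ ≤ K / p + (1 + K) / p := add_le_add hw1 h1
      _ = _ := by ring
  obtain ⟨R, hR⟩ : ∃ R, (1 + K) * S = R := ⟨_, rfl⟩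
  have hR1 : 1 ≤ R := by rw [← hR]; nlinarith
  have hSR : S ≤ R := by rw [← hR]; nlinarith
  have hxR : (N : ℝ) * (1 - 1 / Q) ≤ R := by
    rw [hx, ← hR]
    calc x ≤ j * x := le_mul_of_one_le_left hx0 hj1
      _ = y * S := hjx
      _ ≤ _ := by gcongr
  have key := hC (ebq Q) _ (adm_ebq hQ1) N R hR1 hxR
  rw [hx] at key
  obtain ⟨M, hM⟩ : ∃ M, ME (ebq Q) N b = M := ⟨_, rfl⟩
  rw [hM] at key ⊢
  have hsq : √(j : ℝ) * √(j : ℝ) = j := Real.mul_self_sqrt hj0.le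
  rcases Nat.even_or_odd b with hb | hb
  · obtain ⟨h, rfl⟩ : ∃ h, b = 2 * h := by
      obtain ⟨a, ha⟩ := hb
      exact ⟨a, by omega⟩
    rw [if_pos hb, show 2 * h / 2 = h by omega] at key
    rw [show 2 * h / 2 = h by omega]
    have e1 : √(j : ℝ) ^ (2 * h) = (j : ℝ) ^ h := by
      rw [pow_mul, pow_two, hsq]
    have e2 : (Q ^ m) ^ (2 * h) = S ^ h := by rw [pow_mul, pow_two, ← hSm]
    rw [e1, e2]
    have hSh : 0 < S ^ h := by positivity
    have b1 : |(j : ℝ) ^ h * M / S ^ h - gm (2 * h) * y ^ h| ≤ (j : ℝ) ^ h * C * (1 + K) ^ h / p := by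
      have e3 : (j : ℝ) ^ h * M / S ^ h - gm (2 * h) * y ^ h =
          (j : ℝ) ^ h * (M - gm (2 * h) * x ^ h) / S ^ h := by
        rw [← hy, div_pow, mul_pow]
        field_simp
      rw [e3, abs_div, abs_of_pos hSh, abs_mul, abs_of_pos (by positivity : (0 : ℝ) < (j : ℝ) ^ h),
        div_le_div_iff₀ hSh hp0]
      calc (j : ℝ) ^ h * |M - gm (2 * h) * x ^ h| * p
          ≤ (j : ℝ) ^ h * |M - gm (2 * h) * x ^ h| * R := by
            gcongr
            exact hpS.trans hSR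
        _ = (j : ℝ) ^ h * (|M - gm (2 * h) * x ^ h| * R) := by ring
        _ ≤ (j : ℝ) ^ h * (C * R ^ h) := by gcongr
        _ = _ := by rw [← hR, mul_pow]; ring
    have b2 : |gm (2 * h) * y ^ h - gm (2 * h)| ≤
        |gm (2 * h)| * (h * (1 + K) ^ h * (1 + 2 * K)) / p := by
      have e5 : gm (2 * h) * y ^ h - gm (2 * h) = gm (2 * h) * (y ^ h - 1) := by ring
      rw [e5, abs_mul, mul_div_assoc]
      refine mul_le_mul_of_nonneg_left ?_ (abs_nonneg _)
      refine (pow_sub_one (by linarith) hy0 hy1 hy2 h).trans (le_of_eq ?_)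
      ring
    have e8 : (j : ℝ) ^ h * M / S ^ h - gm (2 * h) =
        ((j : ℝ) ^ h * M / S ^ h - gm (2 * h) * y ^ h) + (gm (2 * h) * y ^ h - gm (2 * h)) := by ring
    rw [e8, add_div]
    exact (abs_add_le _ _).trans (add_le_add b1 b2)
  · obtain ⟨h, rfl⟩ := hb
    rw [if_neg (Nat.not_even_iff_odd.mpr ⟨h, rfl⟩), show (2 * h + 1) / 2 = h by omega, gm_odd,
      zero_mul, sub_zero, mul_one] at key
    rw [gm_odd, sub_zero, abs_zero, zero_mul, add_zero, show (2 * h + 1) / 2 = h by omega]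
    have e3 : (Q ^ m) ^ (2 * h + 1) = S ^ h * Q ^ m := by
      rw [pow_succ, pow_mul, pow_two, ← hSm]
    have hpos : 0 < S ^ h * Q ^ m := by positivity
    rw [e3, abs_div, abs_of_pos hpos, div_le_div_iff₀ hpos hp0, abs_mul,
      abs_of_nonneg (by positivity : (0 : ℝ) ≤ √(j : ℝ) ^ (2 * h + 1))]
    calc √(j : ℝ) ^ (2 * h + 1) * |M| * p ≤ √(j : ℝ) ^ (2 * h + 1) * (C * R ^ h) * Q ^ m := by gcongr
      _ = _ := by rw [← hR, mul_pow]; ring

end Pool.Agent.K1H20.DC
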